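import Pool.Agent.Helper37.LN3.Defs
import Pool.Agent.Helper37.LN2.LOC

/-!
# Project LN3, block LOC3: the local theorem over finite extensions, with the algebraic closure of
Mathlib
-/

set_option autoImplicit false

namespace Pool.Agent.LN3

open VC IntermediateField Pool.Agent.SC NumberField
open Pool.Agent.HG (Pr nm)
open Pool.Agent.L (tO tA tA_apply)
open Pool.Agent.LN2 (FixesD)

theorem fixesD_t {k E E' : Type} [Field k] [Field E] [Algebra k E] [Field E'] [Algebra k E']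
    (e : E ≃ₐ[k] E') {K0 : Type} [Field K0] [Algebra k K0] {h : K0} {D : ℕ → Prop}
    {g : E ≃ₐ[k] E} {g' : E' ≃ₐ[k] E'} (hgg : ∀ z, g' (e z) = e (g z))
    (hg : FixesD h D g) : FixesD h D g' := by
  obtain ⟨P, φ, h1, h2, h3, h4⟩ := hg
  refine ⟨P, (e : E →+* E').comp φ, h1, h2, fun a x hx => ?_, fun x => ?_⟩
  · change e (φ x) = _
    rw [h3 a x hx, AlgEquiv.commutes]
  · change g' (e (φ x)) = e (φ x)
    rw [hgg, h4]

/-- **Block LOC3.** -/
theorem stmtLOC (hTR : LN3.StmtTR) (hK5 : LN3.StmtK5) (hFR : LN.StmtFR) : LN3.StmtLOC := by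
  intro k K0 _ _ _ _ n h hn hgood
  obtain ⟨E, U, i1, i2, i3, i4, i5, i6, i7, i8, r, hgeo, hsec⟩ := hTR k K0 n h hn hgood
  obtain ⟨Bad, hBad, hmain⟩ := hK5 k K0 E U n h r hn hgeo
  refine ⟨Bad, hBad, ?_⟩
  intro v hv k' _ _ _ v' hv' c hc hram hs
  have hac : IsAlgClosed E := hgeo.clE
  have halg : Algebra.IsAlgebraic k E := hgeo.algE
  obtain ⟨j1, j2, Φ, hΦ⟩ := hsec k' c hc hs
  have halg' : Algebra.IsAlgebraic k' E := Algebra.IsAlgebraic.tower_top (K := k) k'
  obtain ⟨O, F, p, f, hD⟩ := hFR k' E v'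
  have h1 := hmain v hv k' v' hv' c hc hram Φ hΦ O F p f hD
  have hcl : IsAlgClosure k E := ⟨hac, halg⟩
  let e : E ≃ₐ[k] AlgebraicClosure k := IsAlgClosure.equiv k E (AlgebraicClosure k)
  let m1 : Algebra k' (AlgebraicClosure k) :=
    ((e : E →+* AlgebraicClosure k).comp (algebraMap k' E)).toAlgebra
  have hm1 : ∀ a : k', algebraMap k' (AlgebraicClosure k) a = e (algebraMap k' E a) :=
    fun _ => rfl
  have m2 : IsScalarTower k k' (AlgebraicClosure k) := IsScalarTower.of_algebraMap_eq fun a => by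
    rw [hm1, ← IsScalarTower.algebraMap_apply k k' E, AlgEquiv.commutes]
  let e' : E ≃ₐ[k'] AlgebraicClosure k :=
    AlgEquiv.ofRingEquiv (f := e.toRingEquiv) fun a => (hm1 a).symm
  refine ⟨m1, m2, tO e' O, tA e' F, p, f, LN.decPt_t e' hD, fixesD_t e (fun z => ?_) h1⟩
  change e' (F (e'.symm (e' z))) = e (F z)
  rw [AlgEquiv.symm_apply_apply]
  rfl

end Pool.Agent.LN3
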