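import Pool.Agent.Helper37.LN3.Defs
import Pool.Agent.Helper37.LN.TRa

/-!
# Project LN3, block TR3: transfer of sections over finite extensions
-/

set_option autoImplicit false
set_option linter.unusedSectionVars false

namespace Pool.Agent.LN3.TR

open VC IntermediateField NumberField Pool.Agent.SC Pool.Agent.Helper91.Sect Pool.Agent.L.TR
  Pool.Agent.LN.TR
open Pool.Agent.L (L0 MM cst)
open Pool.Agent.LN (Geo GoodCurve)

noncomputable section

section act

variable {k' K0 Kc E U : Type} [Field k'] [Field K0] [Field Kc] [Algebra k' Kc]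
  [Algebra K0 Kc] [Field E] [Field U] [Algebra k' E] [Algebra E U] [Algebra K0 U] [Algebra k' U]

theorem actR_Phi {n : ℕ} (s : GaloisSection k' Kc) (ρ : Kur k' Kc ≃+* U) (e : kbar k' Kc ≃ₐ[k'] E)
    (h1 : ∀ z : kbar k' Kc, ρ ⟨z, kbar_mem_Kur z⟩ = algebraMap E U (e z))
    (h2 : ∀ x : K0, ρ (algebraMap Kc (Kur k' Kc) (algebraMap K0 Kc x)) = algebraMap K0 U x)
    (y : Kc) (c : k') (r : U) (d : E) (hd : d ^ n = algebraMap k' E c)
    (hy : algebraMap E U d * r = ρ (algebraMap Kc (Kur k' Kc) y)) :
    ActR (K0 := K0) n r c (Phi s ρ e) where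
  const := Phi_const s ρ e h1
  fixK g x := by
    rw [← h2, Phi_apply, AlgEquiv.commutes]
  tw := by
    refine ⟨d, hd, fun g => ?_⟩
    have h3 : Phi s ρ e g (algebraMap E U d * r) = algebraMap E U d * r := by
      rw [hy, Phi_apply, AlgEquiv.commutes]
    rw [map_mul, Phi_const s ρ e h1] at h3
    rw [mul_comm, h3]
  cont z := by
    obtain ⟨L, hL, hLs⟩ := exists_finite_level s (ρ.symm z)
    refine ⟨L.map (e : kbar k' Kc →ₐ[k'] E), ?_, fun g hg => ?_⟩
    · exact Module.Finite.equiv (L.intermediateFieldMap e).toLinearEquiv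
    · have h3 : (e.trans g).trans e.symm ∈ L.fixingSubgroup := by
        rw [IntermediateField.mem_fixingSubgroup_iff]
        intro x hx
        change e.symm (g (e x)) = x
        rw [hg (e x) ⟨x, hx, rfl⟩, e.symm_apply_apply]
      have h4 := Phi_apply s ρ e g (ρ.symm z)
      rw [hLs _ h3, ρ.apply_symm_apply] at h4
      exact h4

end act

section tower

variable {k k' K : Type} [Field k] [Field k'] [Field K] [Algebra k k'] [Algebra k K] [Algebra k' K]
  [IsScalarTower k k' K] [Algebra.IsAlgebraic k k']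

theorem mem_kbar_iff {z : AlgebraicClosure K} : z ∈ kbar k' K ↔ z ∈ kbar k K := by
  rw [mem_algebraicClosure_iff, mem_algebraicClosure_iff]
  exact ⟨fun h => h.restrictScalars k, fun h => h.extendScalars (algebraMap k k').injective⟩

theorem mem_Kur_iff {z : AlgebraicClosure K} : z ∈ Kur k' K ↔ z ∈ Kur k K := by
  have h1 : ∀ W : ValuationSubring (AlgebraicClosure K),
      (∀ c : k', algebraMap k' (AlgebraicClosure K) c ∈ W) ↔
      ∀ c : k, algebraMap k (AlgebraicClosure K) c ∈ W := by
    intro W
    constructor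
    · intro h c
      rw [IsScalarTower.algebraMap_apply k k' (AlgebraicClosure K)]
      exact h _
    · intro h c
      refine const_mem h ?_
      exact (isAlgebraic_algebraMap (R := k') (A := AlgebraicClosure K) c).restrictScalars k
  constructor
  · intro h W hW σ hσ
    exact h W ((h1 W).2 hW) σ hσ
  · intro h W hW σ hσ
    exact h W ((h1 W).1 hW) σ hσ

end tower

section fixed

variable {k K0 K1 : Type} [Field k] [CharZero k] [Field K0] [Field K1] [Algebra k K0]
  [Algebra k K1] [Algebra K0 K1] [IsScalarTower k K0 K1]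

theorem map_mem_KK' {Kc : Type} [Field Kc] [Algebra K0 Kc] {S : Set Kc}
    (hS : IntermediateField.adjoin K0 S = ⊤)
    (ψ : AlgebraicClosure Kc →+* AlgebraicClosure K1)
    (hψ : ∀ x : K0, ψ (algebraMap Kc (AlgebraicClosure Kc) (algebraMap K0 Kc x)) =
      algebraMap K1 (AlgebraicClosure K1) (algebraMap K0 K1 x))
    (hψS : ∀ y ∈ S, ψ (algebraMap Kc (AlgebraicClosure Kc) y) ∈ KK k K1) (x : Kc) :
    ψ (algebraMap Kc (AlgebraicClosure Kc) x) ∈ KK k K1 := by
  let T : IntermediateField K0 Kc :=
    { ((KK k K1).toSubfield).comap (ψ.comp (algebraMap Kc (AlgebraicClosure Kc))) with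
      algebraMap_mem' := fun x => by
        change ψ (algebraMap Kc (AlgebraicClosure Kc) (algebraMap K0 Kc x)) ∈ KK k K1
        rw [hψ]
        exact algebraMap_mem_KK _ }
  have h1 : (⊤ : IntermediateField K0 Kc) ≤ T := by
    rw [← hS, IntermediateField.adjoin_le_iff]
    exact hψS
  exact h1 (IntermediateField.mem_top (x := x))

/-- transfer of a section of the twist -/
theorem exists_actR {k' Kc : Type} [Field k'] [Algebra k k'] [Algebra.IsAlgebraic k k'] [Field Kc]
    [Algebra k Kc] [Algebra k' Kc] [IsScalarTower k k' Kc] [Algebra K0 Kc] [IsScalarTower k K0 Kc]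
    {n : ℕ} (hn : 0 < n) {h : K0} (hh : h ≠ 0) {r : K1} (hr : r ^ n = algebraMap K0 K1 h)
    (hK1 : IntermediateField.adjoin K0 {r} = ⊤) [FiniteDimensional K0 K1]
    [FiniteDimensional K0 Kc] {c : k'} (hc : c ≠ 0) {y : Kc}
    (hy : y ^ n = algebraMap k' Kc c * algebraMap K0 Kc h)
    (hKc : IntermediateField.adjoin K0 (insert y (Set.range (algebraMap k' Kc))) = ⊤)
    (s : GaloisSection k' Kc) :
    letI : Algebra K0 (UU k K1) := (jU k K0 K1).toAlgebra
    ∃ (_ : Algebra k' (kbar k K1)) (_ : IsScalarTower k k' (kbar k K1))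
      (Φ : ((kbar k K1) ≃ₐ[k'] (kbar k K1)) →* (UU k K1 ≃+* UU k K1)),
      ActR (K0 := K0) n (rU k r) c Φ := by
  let i0 : Algebra K0 (UU k K1) := (jU k K0 K1).toAlgebra
  have halg0 : Algebra.IsAlgebraic K0 (AlgebraicClosure K1) :=
    Algebra.IsAlgebraic.trans K0 K1 (AlgebraicClosure K1)
  have hac0 : IsAlgClosure K0 (AlgebraicClosure K1) := ⟨inferInstance, halg0⟩
  have halgc : Algebra.IsAlgebraic K0 (AlgebraicClosure Kc) :=
    Algebra.IsAlgebraic.trans K0 Kc (AlgebraicClosure Kc)
  have hacc : IsAlgClosure K0 (AlgebraicClosure Kc) := ⟨inferInstance, halgc⟩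
  let ψ : AlgebraicClosure Kc ≃ₐ[K0] AlgebraicClosure K1 :=
    IsAlgClosure.equiv K0 (AlgebraicClosure Kc) (AlgebraicClosure K1)
  have hψ : ∀ x : K0, ψ (algebraMap Kc (AlgebraicClosure Kc) (algebraMap K0 Kc x)) =
      algebraMap K1 (AlgebraicClosure K1) (algebraMap K0 K1 x) := by
    intro x
    rw [← IsScalarTower.algebraMap_apply K0 Kc (AlgebraicClosure Kc),
      ← IsScalarTower.algebraMap_apply K0 K1 (AlgebraicClosure K1)]
    exact ψ.commutes x
  have hψ' : ∀ x : K0, ψ.symm (algebraMap K1 (AlgebraicClosure K1) (algebraMap K0 K1 x)) =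
      algebraMap Kc (AlgebraicClosure Kc) (algebraMap K0 Kc x) := by
    intro x
    rw [← hψ, AlgEquiv.symm_apply_apply]
  have hk : ∀ c : k, ψ (algebraMap k (AlgebraicClosure Kc) c) =
      algebraMap k (AlgebraicClosure K1) c := by
    intro c
    rw [IsScalarTower.algebraMap_apply k Kc (AlgebraicClosure Kc),
      IsScalarTower.algebraMap_apply k K0 Kc, hψ, ← IsScalarTower.algebraMap_apply k K0 K1,
      ← IsScalarTower.algebraMap_apply]
  have hk' : ∀ c : k, ψ.symm (algebraMap k (AlgebraicClosure K1) c) =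
      algebraMap k (AlgebraicClosure Kc) c := by
    intro c
    rw [← hk, AlgEquiv.symm_apply_apply]
  let ψk : AlgebraicClosure Kc ≃ₐ[k] AlgebraicClosure K1 :=
    AlgEquiv.ofRingEquiv (f := (ψ : AlgebraicClosure Kc ≃+* AlgebraicClosure K1)) hk
  have hbar : ∀ z : AlgebraicClosure Kc, z ∈ kbar k Kc → ψ z ∈ kbar k K1 := by
    intro z hz
    rw [mem_algebraicClosure_iff] at hz ⊢
    exact hz.algHom (ψk : AlgebraicClosure Kc →ₐ[k] AlgebraicClosure K1)
  have hbar' : ∀ z : AlgebraicClosure K1, z ∈ kbar k K1 → ψ.symm z ∈ kbar k Kc := by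
    intro z hz
    rw [mem_algebraicClosure_iff] at hz ⊢
    exact hz.algHom (ψk.symm : AlgebraicClosure K1 →ₐ[k] AlgebraicClosure Kc)
  have hk'bar : ∀ c : k', algebraMap k' (AlgebraicClosure Kc) c ∈ kbar k Kc := fun c =>
    (mem_kbar_iff (k := k) (k' := k')).1 ((kbar k' Kc).algebraMap_mem c)
  -- the embedding of `k'`
  let j : k' →+* kbar k K1 :=
    { toFun := fun c => ⟨ψ (algebraMap k' (AlgebraicClosure Kc) c), hbar _ (hk'bar c)⟩
      map_zero' := Subtype.ext (by
        change ψ (algebraMap k' (AlgebraicClosure Kc) 0) = 0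
        rw [map_zero, map_zero])
      map_one' := Subtype.ext (by
        change ψ (algebraMap k' (AlgebraicClosure Kc) 1) = 1
        rw [map_one, map_one])
      map_add' := fun a b => Subtype.ext (by
        change ψ (algebraMap k' (AlgebraicClosure Kc) (a + b)) =
          ψ (algebraMap k' (AlgebraicClosure Kc) a) + ψ (algebraMap k' (AlgebraicClosure Kc) b)
        rw [map_add, map_add])
      map_mul' := fun a b => Subtype.ext (by
        change ψ (algebraMap k' (AlgebraicClosure Kc) (a * b)) =
          ψ (algebraMap k' (AlgebraicClosure Kc) a) * ψ (algebraMap k' (AlgebraicClosure Kc) b)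
        rw [map_mul, map_mul]) }
  have hj : ∀ c : k', (j c : AlgebraicClosure K1) = ψ (algebraMap k' (AlgebraicClosure Kc) c) :=
    fun _ => rfl
  let i1 : Algebra k' (kbar k K1) := j.toAlgebra
  have hi1 : ∀ c : k', algebraMap k' (kbar k K1) c = j c := fun _ => rfl
  have i2 : IsScalarTower k k' (kbar k K1) := IsScalarTower.of_algebraMap_eq fun a => by
    apply Subtype.ext
    change algebraMap k (AlgebraicClosure K1) a =
      ψ (algebraMap k' (AlgebraicClosure Kc) (algebraMap k k' a))
    rw [← IsScalarTower.algebraMap_apply k k' (AlgebraicClosure Kc), hk]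
  let i3 : Algebra k' (UU k K1) := ((algebraMap (kbar k K1) (UU k K1)).comp j).toAlgebra
  -- the root of `c`
  have hr0 : algebraMap K1 (AlgebraicClosure K1) r ≠ 0 := by
    intro h0
    have h1 : r = 0 := (map_eq_zero (algebraMap K1 (AlgebraicClosure K1))).1 h0
    rw [h1, zero_pow hn.ne'] at hr
    exact hh ((map_eq_zero (algebraMap K0 K1)).1 hr.symm)
  have hpow : (ψ (algebraMap Kc (AlgebraicClosure Kc) y)) ^ n =
      (j c : AlgebraicClosure K1) * (algebraMap K1 (AlgebraicClosure K1) r) ^ n := by
    rw [← map_pow, ← map_pow, hy, map_mul, map_mul, hψ, hj,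
      ← IsScalarTower.algebraMap_apply k' Kc (AlgebraicClosure Kc), ← map_pow, hr]
  obtain ⟨d, hd⟩ : ∃ d : AlgebraicClosure K1,
      d * algebraMap K1 (AlgebraicClosure K1) r = ψ (algebraMap Kc (AlgebraicClosure Kc) y) :=
    ⟨_, div_mul_cancel₀ _ hr0⟩
  have hdn : d ^ n = (j c : AlgebraicClosure K1) := by
    rw [← hd, mul_pow] at hpow
    exact mul_right_cancel₀ (pow_ne_zero _ hr0) hpow
  have hjc : (j c : AlgebraicClosure K1) ≠ 0 := by
    rw [hj]
    intro h0
    exact hc ((map_eq_zero (algebraMap k' (AlgebraicClosure Kc))).1 ((map_eq_zero ψ).1 h0))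
  have hd0 : d ≠ 0 := by
    intro h0
    rw [h0, zero_pow hn.ne'] at hdn
    exact hjc hdn.symm
  have hdk : d ∈ kbar k K1 := by
    rw [mem_algebraicClosure_iff]
    refine IsAlgebraic.of_pow hn ?_
    rw [hdn]
    exact (mem_algebraicClosure_iff).1 (j c).2
  have hdM : d ∈ KK k K1 := (KK k K1).algebraMap_mem (⟨d, hdk⟩ : kbar k K1)
  have hrM : algebraMap K1 (AlgebraicClosure K1) r ∈ KK k K1 := algebraMap_mem_KK _
  have hψr : ψ.symm (algebraMap K1 (AlgebraicClosure K1) r) ∈ KK k Kc := by
    have h2 : ψ.symm d ∈ KK k Kc :=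
      (KK k Kc).algebraMap_mem (⟨ψ.symm d, hbar' d hdk⟩ : kbar k Kc)
    have h3 : algebraMap Kc (AlgebraicClosure Kc) y ∈ KK k Kc := algebraMap_mem_KK _
    have h4 : ψ.symm (algebraMap K1 (AlgebraicClosure K1) r) =
        (ψ.symm d)⁻¹ * (ψ.symm (d * algebraMap K1 (AlgebraicClosure K1) r)) := by
      rw [map_mul, ← mul_assoc, inv_mul_cancel₀ ((map_ne_zero_iff ψ.symm ψ.symm.injective).2 hd0),
        one_mul]
    rw [h4, hd, AlgEquiv.symm_apply_apply]
    exact mul_mem (inv_mem h2) h3
  have hKc' : ∀ x : Kc, ψ (algebraMap Kc (AlgebraicClosure Kc) x) ∈ KK k K1 := by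
    refine map_mem_KK' hKc (ψ : AlgebraicClosure Kc →+* AlgebraicClosure K1) hψ ?_
    rintro w (rfl | ⟨a, rfl⟩)
    · change ψ (algebraMap Kc (AlgebraicClosure Kc) w) ∈ KK k K1
      rw [← hd]
      exact mul_mem hdM hrM
    · change ψ (algebraMap Kc (AlgebraicClosure Kc) (algebraMap k' Kc a)) ∈ KK k K1
      rw [← IsScalarTower.algebraMap_apply k' Kc (AlgebraicClosure Kc)]
      exact (KK k K1).algebraMap_mem (j a)
  have hK1' : ∀ x : K1, ψ.symm (algebraMap K1 (AlgebraicClosure K1) x) ∈ KK k Kc :=
    map_mem_KK hK1 (ψ.symm : AlgebraicClosure K1 →+* AlgebraicClosure Kc) hψ' hψr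
  have hur : ∀ z : AlgebraicClosure Kc, z ∈ Kur k' Kc → ψ z ∈ Kur k K1 := fun z hz =>
    kur_of_iso (ψ.symm : AlgebraicClosure K1 ≃+* AlgebraicClosure Kc) hk' hKc'
      ((mem_Kur_iff (k := k) (k' := k')).1 hz)
  have hur' : ∀ z : AlgebraicClosure K1, z ∈ Kur k K1 → ψ.symm z ∈ Kur k' Kc := fun z hz =>
    (mem_Kur_iff (k := k) (k' := k')).2
      (kur_of_iso (ψ : AlgebraicClosure Kc ≃+* AlgebraicClosure K1) hk hK1' hz)
  let ρ : Kur k' Kc ≃+* UU k K1 :=
    { toFun := fun z => ⟨ψ z, mem_UU.2 (hur z z.2)⟩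
      invFun := fun z => ⟨ψ.symm z, hur' z (mem_UU.1 z.2)⟩
      left_inv := fun z => Subtype.ext (ψ.symm_apply_apply z)
      right_inv := fun z => Subtype.ext (ψ.apply_symm_apply z)
      map_mul' := fun a b => Subtype.ext (map_mul ψ (a : AlgebraicClosure Kc) b)
      map_add' := fun a b => Subtype.ext (map_add ψ (a : AlgebraicClosure Kc) b) }
  let e : kbar k' Kc ≃ₐ[k'] kbar k K1 :=
    { toFun := fun z => ⟨ψ z, hbar z ((mem_kbar_iff (k := k) (k' := k')).1 z.2)⟩
      invFun := fun z => ⟨ψ.symm z, (mem_kbar_iff (k := k) (k' := k')).2 (hbar' z z.2)⟩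
      left_inv := fun z => Subtype.ext (ψ.symm_apply_apply z)
      right_inv := fun z => Subtype.ext (ψ.apply_symm_apply z)
      map_mul' := fun a b => Subtype.ext (map_mul ψ (a : AlgebraicClosure Kc) b)
      map_add' := fun a b => Subtype.ext (map_add ψ (a : AlgebraicClosure Kc) b)
      commutes' := fun c => Subtype.ext rfl }
  exact ⟨i1, i2, Phi s ρ e, actR_Phi s ρ e (fun z => rfl) (fun x => Subtype.ext (hψ x)) y c _
    (⟨d, hdk⟩ : kbar k K1) (Subtype.ext hdn) (Subtype.ext hd)⟩

end fixed

end

end Pool.Agent.LN3.TR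

namespace Pool.Agent.LN3

open VC IntermediateField NumberField Pool.Agent.SC Pool.Agent.Helper91.Sect Pool.Agent.L.TR
  Pool.Agent.LN.TR Pool.Agent.LN3.TR
open Pool.Agent.LN (Geo GoodCurve)

/-- BLOCK TR3. -/
theorem tr : StmtTR := by
  intro k K0 _ _ _ _ n h hn hg
  have hn0 : 0 < n := by omega
  obtain ⟨r₀, hr₀⟩ := IsAlgClosed.exists_pow_nat_eq (algebraMap K0 (AlgebraicClosure K0) h) hn0
  have hh : h ≠ 0 := by
    intro h0
    refine hg.irr r₀ hr₀ 1 (by omega) (by omega) ?_
    rw [h0, map_zero] at hr₀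
    rw [pow_eq_zero_iff hn0.ne' |>.1 hr₀, pow_one]
    exact zero_mem _
  let K1 : IntermediateField K0 (AlgebraicClosure K0) := IntermediateField.adjoin K0 {r₀}
  have hfd : FiniteDimensional K0 K1 := by
    refine IntermediateField.adjoin.finiteDimensional ?_
    exact (Algebra.IsAlgebraic.isAlgebraic r₀).isIntegral
  let r : K1 := ⟨r₀, IntermediateField.mem_adjoin_simple_self K0 r₀⟩
  have hr : r ^ n = algebraMap K0 K1 h := Subtype.ext hr₀
  have hK1 : IntermediateField.adjoin K0 {r} = ⊤ := by
    apply IntermediateField.map_injective K1.val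
    rw [IntermediateField.adjoin_map, Set.image_singleton, ← AlgHom.fieldRange_eq_map,
      IntermediateField.fieldRange_val]
    rfl
  let i0 : Algebra K0 (UU k K1) := (jU k K0 K1).toAlgebra
  refine ⟨kbar k K1, UU k K1, inferInstance, inferInstance, inferInstance, inferInstance, i0,
    inferInstance, inferInstance, ?_, rU k r, geo hn0 h r hg hr hK1, ?_⟩
  · refine IsScalarTower.of_algebraMap_eq fun x => ?_
    apply Subtype.ext
    change algebraMap k (AlgebraicClosure K1) x =
      algebraMap K1 (AlgebraicClosure K1) (algebraMap K0 K1 (algebraMap k K0 x))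
    rw [← IsScalarTower.algebraMap_apply k K0 K1,
      ← IsScalarTower.algebraMap_apply k K1 (AlgebraicClosure K1)]
  · rintro k' _ _ _ c hc ⟨K, _, _, _, y, hcomp, hy, ⟨s⟩⟩
    let aK : Algebra k K := ((algebraMap K0 K).comp (algebraMap k K0)).toAlgebra
    have haK : ∀ a : k, algebraMap k K a = algebraMap K0 K (algebraMap k K0 a) := fun _ => rfl
    have st0 : IsScalarTower k K0 K := IsScalarTower.of_algebraMap_eq haK
    have st1 : IsScalarTower k k' K := IsScalarTower.of_algebraMap_eq fun a => by
      rw [haK, hcomp]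
    let Kc : IntermediateField K0 K :=
      IntermediateField.adjoin K0 (insert y (Set.range (algebraMap k' K)))
    have hyc : y ∈ Kc := IntermediateField.subset_adjoin _ _ (Set.mem_insert _ _)
    have hkc : ∀ a : k', algebraMap k' K a ∈ Kc := fun a =>
      IntermediateField.subset_adjoin _ _ (Set.mem_insert_of_mem _ ⟨a, rfl⟩)
    let y' : Kc := ⟨y, hyc⟩
    let jc : k' →+* Kc := (algebraMap k' K).codRestrict Kc.toSubfield.toSubring hkc
    let a1 : Algebra k' Kc := jc.toAlgebra
    have ha1 : ∀ a : k', ((algebraMap k' Kc a : Kc) : K) = algebraMap k' K a := fun _ => rfl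
    have hst1 : IsScalarTower k' Kc K := IsScalarTower.of_algebraMap_eq fun x => rfl
    have hst2 : IsScalarTower k k' Kc := IsScalarTower.of_algebraMap_eq fun a => by
      apply Subtype.ext
      rw [ha1, ← IsScalarTower.algebraMap_apply k k' K]
      rfl
    obtain ⟨s'⟩ := Pool.Agent.TW.push (k := k') (K₁ := Kc) s
    have hy' : y' ^ n = algebraMap k' Kc c * algebraMap K0 Kc h := Subtype.ext hy
    have hKc : IntermediateField.adjoin K0 (insert y' (Set.range (algebraMap k' Kc))) = ⊤ := by
      apply IntermediateField.map_injective Kc.val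
      have h1 : (Kc.val : Kc → K) '' (insert y' (Set.range (algebraMap k' Kc))) =
          insert y (Set.range (algebraMap k' K)) := by
        rw [Set.image_insert_eq, ← Set.range_comp]
        rfl
      rw [IntermediateField.adjoin_map, h1, ← AlgHom.fieldRange_eq_map,
        IntermediateField.fieldRange_val]
    have hfc : FiniteDimensional K0 Kc := by
      -- a finite set of generators
      obtain ⟨S, hS⟩ : ∃ S : Finset k', IntermediateField.adjoin k (S : Set k') = ⊤ := by
        have h1 : (⊤ : IntermediateField k k').FG := IntermediateField.fg_of_noetherian _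
        obtain ⟨S, hS⟩ := h1
        exact ⟨S, hS⟩
      have hle : Kc = IntermediateField.adjoin K0 (insert y (algebraMap k' K '' (S : Set k'))) := by
        apply le_antisymm
        · rw [IntermediateField.adjoin_le_iff]
          rintro w (rfl | ⟨a, rfl⟩)
          · exact IntermediateField.subset_adjoin _ _ (Set.mem_insert _ _)
          · have h2 : a ∈ IntermediateField.adjoin k (S : Set k') := by
              rw [hS]
              exact IntermediateField.mem_top
            induction h2 using IntermediateField.adjoin_induction with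
            | mem x hx =>
              exact IntermediateField.subset_adjoin _ _ (Set.mem_insert_of_mem _ ⟨x, hx, rfl⟩)
            | algebraMap x =>
              rw [← IsScalarTower.algebraMap_apply k k' K, haK]
              exact IntermediateField.algebraMap_mem _ _
            | add x z _ _ hx hz =>
              rw [map_add]
              exact add_mem hx hz
            | inv x _ hx =>
              rw [map_inv₀]
              exact inv_mem hx
            | mul x z _ _ hx hz =>
              rw [map_mul]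
              exact mul_mem hx hz
        · refine IntermediateField.adjoin.mono _ _ _ (Set.insert_subset_insert ?_)
          rintro _ ⟨a, -, rfl⟩
          exact ⟨a, rfl⟩
      have hint : ∀ a : k', IsIntegral K0 (algebraMap k' K a) := fun a =>
        ((Algebra.IsIntegral.isIntegral (R := k) a).map (IsScalarTower.toAlgHom k k' K)).tower_top
      rw [hle]
      have hfin : Finite (insert y (algebraMap k' K '' (S : Set k')) : Set K) :=
        Set.Finite.to_subtype ((S.finite_toSet.image _).insert _)
      refine IntermediateField.finiteDimensional_adjoin ?_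
      rintro w (rfl | ⟨a, -, rfl⟩)
      · refine IsIntegral.of_pow hn0 ?_
        rw [hy]
        exact (hint c).mul isIntegral_algebraMap
      · exact hint a
    exact exists_actR hn0 hh hr hK1 hc hy' hKc s'

end Pool.Agent.LN3
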