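import Pool.Agent.Helper37.LN3.K5
import Pool.Agent.Helper45.LN3.LOC
import Pool.Agent.Helper45.LN3.TR
import Pool.Agent.Helper29.LN3.GL
import Pool.Agent.Helper79.LN3.DEN
import Pool.Agent.Helper97.LN3.Fin
import Pool.Agent.Helper45.LN.All2

/-!
# Project LN3: everything
-/

set_option autoImplicit false

namespace Pool.Agent.LN3

theorem loc_all : StmtLOC :=
  stmtLOC tr (k5 (Pool.Agent.L.stmtK2 Pool.Agent.L.stmtK1) Pool.Agent.LN.k3
    Pool.Agent.LN.k4 Pool.Agent.L.stmtAR) Pool.Agent.LN.fr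

theorem fin_all : StmtFin :=
  fin_of (gl loc_all Pool.Agent.Helper79.LN3.den) Pool.Agent.LN2.up Pool.Agent.LN2.cls
    Pool.Agent.LN.low Pool.Agent.LN.clo

end Pool.Agent.LN3
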